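import Mathlib
import Pool.Agent.H23ISO.Defs

/-!
MP_dd2d88: chains of subsheaves, the quotient `F / G` and the Loewy bound.
-/

set_option autoImplicit false

open LaurentPolynomial

namespace Pool.Agent.H60ISO

open Pool.Agent.DWC Pool.Agent.H23ISO

universe u

variable {k : Type u} [Field k] {X : Nbhd k}

/-- `P₂ / P₁` is a direct sum of `r` copies of `𝒪_C(-1)`. -/
def LayerR (E : FSh X) (r : ℕ) (P₁ P₂ : Submodule X.B E.V) : Prop :=
  ∃ θ : P₂ →+ (Fin r → k[T;T⁻¹]),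
    (∀ (b : X.B) (p : P₂) (i : Fin r), θ (b • p) i = X.res b * θ p i) ∧
    Function.Surjective θ ∧ (∀ p : P₂, θ p = 0 ↔ (p : E.V) ∈ P₁) ∧
    (∀ f : Fin r → k[T;T⁻¹], (∃ p : P₂, (p : E.V) ∈ E.V₀ ∧ θ p = f) ↔ ∀ i, f i ∈ Reg0 k) ∧
    (∀ f : Fin r → k[T;T⁻¹], (∃ p : P₂, (p : E.V) ∈ E.V₁ ∧ θ p = f) ↔ ∀ i, f i ∈ RegInf k (-1))

/-- A chain with its ranks. -/
def RChain (E : FSh X) (F G : Submodule X.B E.V) (L : ℕ) (P : ℕ → Submodule X.B E.V)
    (r : ℕ → ℕ) : Prop :=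
  P 0 = G ∧ P L = F ∧ ∀ j < L, P j ≤ P (j + 1) ∧ LayerR E (r j) (P j) (P (j + 1))

theorem RChain.chain {E : FSh X} {F G : Submodule X.B E.V} {L : ℕ}
    {P : ℕ → Submodule X.B E.V} {r : ℕ → ℕ} (h : RChain E F G L P r) : Chain E F G :=
  ⟨L, P, h.1, h.2.1, fun j hj => ⟨(h.2.2 j hj).1, r j, (h.2.2 j hj).2⟩⟩

theorem RChain.mono {E : FSh X} {F G : Submodule X.B E.V} {L : ℕ}
    {P : ℕ → Submodule X.B E.V} {r : ℕ → ℕ} (h : RChain E F G L P r) :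
    ∀ i j, i ≤ j → j ≤ L → P i ≤ P j := by
  intro i j hij
  induction j, hij using Nat.le_induction with
  | base => intro _; exact le_rfl
  | succ j hij ih => intro hj; exact (ih (by omega)).trans (h.2.2 j (by omega)).1

theorem IC_smul_le {E : FSh X} {r : ℕ} {P₁ P₂ : Submodule X.B E.V} (h : LayerR E r P₁ P₂) :
    IC X • P₂ ≤ P₁ := by
  obtain ⟨θ, hθ, -, hker, -, -⟩ := h
  rw [Submodule.smul_le]
  intro b hb p hp
  have h1 : θ (b • ⟨p, hp⟩) = 0 := by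
    funext i
    rw [hθ, mem_IC.1 hb, zero_mul]
    rfl
  exact (hker _).1 h1

theorem pow_smul_le {A V : Type*} [CommRing A] [AddCommGroup V] [Module A V] (I : Ideal A)
    (P : ℕ → Submodule A V) (L : ℕ) (h : ∀ j < L, I • P (j + 1) ≤ P j) :
    I ^ L • P L ≤ P 0 := by
  induction L with
  | zero => rw [pow_zero, Ideal.one_eq_top, Submodule.top_smul]
  | succ L ih =>
    rw [pow_succ, Submodule.mul_smul]
    exact (Submodule.smul_mono le_rfl (h L (by omega))).trans (ih fun j hj => h j (by omega))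

theorem RChain.pow_le {E : FSh X} {F G : Submodule X.B E.V} {L : ℕ}
    {P : ℕ → Submodule X.B E.V} {r : ℕ → ℕ} (h : RChain E F G L P r) :
    IC X ^ L • F ≤ G := by
  have h1 := pow_smul_le (IC X) P L fun j hj => IC_smul_le (h.2.2 j hj).2
  rwa [h.1, h.2.1] at h1

theorem RChain.isOpen {E : FSh X} {F G : Submodule X.B E.V} {L : ℕ}
    {P : ℕ → Submodule X.B E.V} {r : ℕ → ℕ} (h : RChain E F G L P r) (hF : IsOpen' E F) :
    IsOpen' E G := by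
  obtain ⟨n, hn⟩ := hF
  refine ⟨L + n, ?_⟩
  rw [pow_add, Submodule.mul_smul]
  exact (Submodule.smul_mono le_rfl hn).trans h.pow_le

/-- The sheaf `F / G`. -/
noncomputable def quo (E : FSh X) (F G : Submodule X.B E.V) (hG : IsOpen' E G) (hGF : G ≤ F) :
    Sh X where
  M := F ⧸ G.submoduleOf F
  M₀ := AddSubgroup.map (G.submoduleOf F).mkQ.toAddMonoidHom
    ((E.V₀.toAddSubgroup).comap F.subtype.toAddMonoidHom)
  M₁ := AddSubgroup.map (G.submoduleOf F).mkQ.toAddMonoidHom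
    ((E.V₁.toAddSubgroup).comap F.subtype.toAddMonoidHom)
  smul₀ := by
    rintro b hb _ ⟨p, hp, rfl⟩
    exact ⟨b • p, E.V₀.smul_mem ⟨b, hb⟩ hp, rfl⟩
  smul₁ := by
    rintro b hb _ ⟨p, hp, rfl⟩
    exact ⟨b • p, E.V₁.smul_mem ⟨b, hb⟩ hp, rfl⟩
  loc₀ := by
    intro m
    obtain ⟨p, rfl⟩ := Submodule.Quotient.mk_surjective _ m
    obtain ⟨n, hn⟩ := hG
    obtain ⟨j, c, hc, hj⟩ := E.loc₀ n p
    have hcG := hn hc
    refine ⟨j, ⟨(X.x : X.B) ^ j • p + ⟨c, hGF hcG⟩, hj, ?_⟩⟩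
    refine (Submodule.Quotient.eq _).2 ?_
    show ((X.x : X.B) ^ j • (p : E.V) + c) - (X.x : X.B) ^ j • (p : E.V) ∈ G
    rwa [add_sub_cancel_left]
  loc₁ := by
    intro m
    obtain ⟨p, rfl⟩ := Submodule.Quotient.mk_surjective _ m
    obtain ⟨n, hn⟩ := hG
    obtain ⟨j, c, hc, hj⟩ := E.loc₁ n p
    have hcG := hn hc
    refine ⟨j, ⟨(X.w : X.B) ^ j • p + ⟨c, hGF hcG⟩, hj, ?_⟩⟩
    refine (Submodule.Quotient.eq _).2 ?_
    show ((X.w : X.B) ^ j • (p : E.V) + c) - (X.w : X.B) ^ j • (p : E.V) ∈ G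
    rwa [add_sub_cancel_left]

end Pool.Agent.H60ISO
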