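import Mathlib
import Pool.Agent.H60ISO.Kill

/-!
MP_dd2d88: the sheaf `F / G` of a chain is an iterated extension, so a fixed power of the ideal
of `C` maps `F` into `G`.
-/

set_option autoImplicit false

open LaurentPolynomial

namespace Pool.Agent.H60ISO

open Pool.Agent.DWC Pool.Agent.H23ISO

universe u

variable {k : Type u} [Field k] {X : Nbhd k}

/-- A quotient of a chain is an iterated extension. -/
theorem loewy_of_quo {E : FSh X} {F G : Submodule X.B E.V} {L : ℕ}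
    {P : ℕ → Submodule X.B E.V} {r : ℕ → ℕ} (h : RChain E F G L P r) (S : Sh X)
    (q : F →ₗ[X.B] S.M) (hq : Function.Surjective q)
    (hqG : ∀ p : F, q p = 0 ↔ (p : E.V) ∈ G)
    (hM0 : ∀ m : S.M, m ∈ S.M₀ ↔ ∃ p : F, (p : E.V) ∈ E.V₀ ∧ q p = m)
    (hM1 : ∀ m : S.M, m ∈ S.M₁ ↔ ∃ p : F, (p : E.V) ∈ E.V₁ ∧ q p = m) :
    Loewy S (-1) L := by
  classical
  let P' : ℕ → Submodule X.B S.M := fun j => Submodule.map q ((P j).comap F.subtype)
  have hmem : ∀ j, j ≤ L → ∀ p : F, (q p ∈ P' j ↔ (p : E.V) ∈ P j) := by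
    intro j hj p
    constructor
    · rintro ⟨p', hp', hpp⟩
      have h0 : q (p' - p) = 0 := by rw [map_sub, hpp, sub_self]
      have h1 : (p' : E.V) - p ∈ G := (hqG _).1 h0
      have h2 : (p' : E.V) ∈ P j := hp'
      have h3 : (p' : E.V) - p ∈ P j := by
        have h4 := h.mono 0 j (by omega) hj
        rw [h.1] at h4
        exact h4 h1
      have h5 := (P j).sub_mem h2 h3
      rwa [sub_sub_cancel] at h5
    · intro hp
      exact ⟨p, hp, rfl⟩
  refine ⟨P', ?_, ?_, ?_⟩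
  · rw [eq_bot_iff]
    rintro _ ⟨p, hp, rfl⟩
    have hp' : (p : E.V) ∈ P 0 := hp
    rw [h.1] at hp'
    exact (hqG p).2 hp'
  · rw [eq_top_iff]
    intro m _
    obtain ⟨p, rfl⟩ := hq m
    rw [hmem L le_rfl, h.2.1]
    exact p.2
  · intro j hj
    obtain ⟨hle, θ, hθ, hsurj, hker, h0, h1⟩ := h.2.2 j hj
    have hjF : P (j + 1) ≤ F := by
      have h4 := h.mono (j + 1) L (by omega) le_rfl
      rwa [h.2.1] at h4
    refine ⟨Submodule.map_mono fun p hp => hle hp, r j, ?_⟩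
    -- representatives
    have hrep : ∀ y : P' (j + 1), ∃ p : P (j + 1), q ⟨p, hjF p.2⟩ = y := by
      rintro ⟨y, hy⟩
      obtain ⟨p, hp, hpy⟩ := hy
      exact ⟨⟨p, hp⟩, hpy⟩
    choose g hg using hrep
    have hspec : ∀ (y : P' (j + 1)) (p : P (j + 1)), q ⟨p, hjF p.2⟩ = y → θ (g y) = θ p := by
      intro y p hp
      have h2 : q (⟨g y, hjF (g y).2⟩ - ⟨p, hjF p.2⟩) = 0 := by
        rw [map_sub, hg, hp, sub_self]
      have h3 : ((g y : P (j + 1)) : E.V) - p ∈ G := (hqG _).1 h2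
      have h4 : ((g y : P (j + 1)) : E.V) - p ∈ P j := by
        have h5 := h.mono 0 j (by omega) (by omega)
        rw [h.1] at h5
        exact h5 h3
      have h5 : θ (g y - p) = 0 := (hker _).2 h4
      rwa [map_sub, sub_eq_zero] at h5
    have hch : ∀ (A : AddSubgroup S.M) (R : Set E.V),
        (∀ m : S.M, m ∈ A ↔ ∃ p : F, (p : E.V) ∈ R ∧ q p = m) → ∀ f : Fin (r j) → k[T;T⁻¹],
        (∃ p : P' (j + 1), (p : S.M) ∈ A ∧ θ (g p) = f) ↔
          ∃ p : P (j + 1), (p : E.V) ∈ R ∧ θ p = f := by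
      intro A R hA f
      constructor
      · rintro ⟨y, hy0, hy⟩
        obtain ⟨p, hp, hpy⟩ := (hA _).1 hy0
        have hpP : (p : E.V) ∈ P (j + 1) := by
          rw [← hmem (j + 1) (by omega), hpy]
          exact y.2
        refine ⟨⟨p, hpP⟩, hp, ?_⟩
        rw [← hy]
        exact (hspec y ⟨p, hpP⟩ hpy).symm
      · rintro ⟨p, hp0, hp⟩
        refine ⟨⟨q ⟨p, hjF p.2⟩, (hmem (j + 1) (by omega) _).2 p.2⟩,
          (hA _).2 ⟨⟨p, hjF p.2⟩, hp0, rfl⟩, ?_⟩
        rw [hspec _ p rfl, hp]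
    refine ⟨⟨⟨fun y => θ (g y), ?_⟩, ?_⟩, ?_, ?_, ?_, ?_, ?_⟩
    · rw [hspec 0 0 (by exact map_zero q), map_zero]
    · intro y z
      show θ (g (y + z)) = θ (g y) + θ (g z)
      rw [← map_add]
      apply hspec
      have h2 : (⟨((g y + g z : P (j + 1)) : E.V), hjF (g y + g z).2⟩ : F) =
          ⟨g y, hjF (g y).2⟩ + ⟨g z, hjF (g z).2⟩ := rfl
      rw [h2, map_add, hg, hg]
      rfl
    · intro b y i
      show θ (g (b • y)) i = X.res b * θ (g y) i
      rw [← hθ]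
      have h3 : θ (g (b • y)) = θ (b • g y) := by
        apply hspec
        have h2 : (⟨((b • g y : P (j + 1)) : E.V), hjF (b • g y).2⟩ : F) =
            b • ⟨g y, hjF (g y).2⟩ := rfl
        rw [h2, map_smul, hg]
        rfl
      rw [h3]
    · intro f
      obtain ⟨p, hp⟩ := hsurj f
      refine ⟨⟨q ⟨p, hjF p.2⟩, (hmem (j + 1) (by omega) _).2 p.2⟩, ?_⟩
      show θ (g _) = f
      rw [hspec _ p rfl, hp]
    · intro y
      show θ (g y) = 0 ↔ _
      rw [hker, ← hmem j (by omega) ⟨g y, hjF (g y).2⟩, hg]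
    · intro f
      rw [← h0]
      exact hch S.M₀ E.V₀ hM0 f
    · intro f
      rw [← h1]
      exact hch S.M₁ E.V₁ hM1 f

theorem quo_loewy {E : FSh X} {F G : Submodule X.B E.V} {L : ℕ}
    {P : ℕ → Submodule X.B E.V} {r : ℕ → ℕ} (h : RChain E F G L P r) (hG : IsOpen' E G)
    (hGF : G ≤ F) : Loewy (quo E F G hG hGF) (-1) L :=
  loewy_of_quo h (quo E F G hG hGF) (G.submoduleOf F).mkQ
    (Submodule.mkQ_surjective _) (fun _ => Submodule.Quotient.mk_eq_zero _)
    (fun _ => Iff.rfl) (fun _ => Iff.rfl)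

theorem loewy_kill {S : Sh X} {N : ℕ} (h : Loewy S (-1) N) :
    IC X ^ N • (⊤ : Submodule X.B S.M) = ⊥ := by
  obtain ⟨P, h0, hN, hP⟩ := h
  have h1 := pow_smul_le (IC X) P N fun j hj => by
    obtain ⟨-, r, θ, hθ, -, hker, -, -⟩ := hP j hj
    rw [Submodule.smul_le]
    intro b hb p hp
    have h1 : θ (b • ⟨p, hp⟩) = 0 := by
      funext i
      rw [hθ, mem_IC.1 hb, zero_mul]
      rfl
    exact (hker _).1 h1
  rw [h0, hN] at h1
  exact eq_bot_iff.2 h1

/-- The Loewy bound for chains. -/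
theorem pow_bound {N : ℕ} (hN : ∀ S : Sh X, (∃ n : ℕ, Loewy S (-1) n) → Loewy S (-1) N)
    {E : FSh X} {F G : Submodule X.B E.V} {L : ℕ}
    {P : ℕ → Submodule X.B E.V} {r : ℕ → ℕ} (h : RChain E F G L P r) (hF : IsOpen' E F) :
    IC X ^ N • F ≤ G := by
  have hGF : G ≤ F := by
    have := h.mono 0 L (by omega) le_rfl
    rwa [h.1, h.2.1] at this
  have h1 := loewy_kill (hN (quo E F G (h.isOpen hF) hGF) ⟨L, quo_loewy h _ _⟩)
  rw [Submodule.smul_le]
  intro b hb p hp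
  have h2 : b • (G.submoduleOf F).mkQ ⟨p, hp⟩ = 0 := by
    have h3 : ∀ m : (quo E F G (h.isOpen hF) hGF).M, b • m = 0 := fun m => by
      have h4 : b • m ∈ IC X ^ N • (⊤ : Submodule X.B (quo E F G (h.isOpen hF) hGF).M) :=
        Submodule.smul_mem_smul hb trivial
      rw [h1] at h4
      exact h4
    exact h3 _
  rw [← map_smul] at h2
  have h5 : (b • ⟨p, hp⟩ : F) ∈ G.submoduleOf F := (Submodule.Quotient.mk_eq_zero _).1 h2
  exact h5

end Pool.Agent.H60ISO
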