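import Mathlib
import Pool.Agent.H60ISO.Quo
import Pool.Agent.H60DW.Chain

/-!
MP_dd2d88: the total rank of a chain is bounded.
-/

set_option autoImplicit false

open LaurentPolynomial

namespace Pool.Agent.H60ISO

open Pool.Agent.DWC Pool.Agent.H23ISO Pool.Agent.H60DW

universe u v w

/-- A noetherian module killed by a power of `m`, where `A = k + m`, is finite dimensional. -/
theorem finite_of_pow_noeth {k : Type u} {A : Type v} [Field k] [CommRing A]
    [Algebra k A] (m : Ideal A) (hres : ∀ a : A, ∃ c : k, a - algebraMap k A c ∈ m)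
    (n : ℕ) : ∀ (M : Type w) [AddCommGroup M] [Module A M] [Module k M] [IsScalarTower k A M]
      [IsNoetherian A M], (∀ a ∈ m ^ n, ∀ x : M, a • x = 0) → Module.Finite k M := by
  induction n with
  | zero =>
    intro M _ _ _ _ _ h
    have : Subsingleton M := ⟨fun x y => by
      have h1 := h 1 (by simp) x
      have h2 := h 1 (by simp) y
      rw [one_smul] at h1 h2
      rw [h1, h2]⟩
    infer_instance
  | succ n ih =>
    intro M _ _ _ _ _ h
    let N : Submodule A M := m • ⊤
    have h1 : Module.Finite k N := by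
      refine ih N fun a ha x => ?_
      obtain ⟨x, hx⟩ := x
      apply Subtype.ext
      show a • x = 0
      refine Submodule.smul_induction_on hx ?_ ?_
      · intro b hb y _
        rw [smul_smul]
        refine h _ ?_ y
        rw [pow_succ]
        exact Ideal.mul_mem_mul ha hb
      · intro y z hy hz
        rw [smul_add, hy, hz, add_zero]
    have h2 : Module.Finite k (M ⧸ N) := by
      refine finite_of_killed m hres fun a ha x => ?_
      obtain ⟨y, rfl⟩ := Submodule.Quotient.mk_surjective N x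
      rw [← Submodule.Quotient.mk_smul, Submodule.Quotient.mk_eq_zero]
      exact Submodule.smul_mem_smul ha trivial
    have h3 : Module.Finite k (N.restrictScalars k) := h1
    have h4 : Module.Finite k (M ⧸ N.restrictScalars k) := h2
    exact Module.Finite.of_submodule_quotient (N.restrictScalars k)

variable {k : Type u} [Field k] {X : Nbhd k}

/-- The total rank of a chain is bounded. -/
theorem rank_bound (E : FSh X) (F : Submodule X.B E.V) (N : ℕ) : ∃ D : ℕ,
    ∀ (G : Submodule X.B E.V) (L : ℕ) (P : ℕ → Submodule X.B E.V) (r : ℕ → ℕ),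
      RChain E F G L P r → IC X ^ N • F ≤ G → ∑ j ∈ Finset.range L, r j ≤ D := by
  classical
  let F₀ : Submodule X.B₀ E.V := sec₀ E F
  let K : Submodule X.B₀ E.V := F₀.map (LinearMap.lsmul X.B₀ E.V (x0 X)) ⊔
    sec₀ E (IC X ^ N • F)
  let M := F₀ ⧸ K.submoduleOf F₀
  letI modk : Module k M := Module.compHom M (algebraMap k X.B₀)
  have tower : IsScalarTower k X.B₀ M := ⟨fun c b m => by
    show (c • b) • m = algebraMap k X.B₀ c • b • m
    rw [Algebra.smul_def, mul_smul]⟩
  have hnoeth : IsNoetherian X.B₀ F₀ := by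
    have h1 : F₀ ≤ E.V₀ := inf_le_right
    have h2 := E.noeth₀
    exact isNoetherian_of_le h1
  have hx : ∀ a ∈ F₀, x0 X • a ∈ K := fun a ha =>
    Submodule.mem_sup_left ⟨a, ha, rfl⟩
  let m : Ideal X.B₀ := Ideal.span {x0 X} ⊔ ideal0 X
  have hfin : Module.Finite k M := by
    refine finite_of_pow_noeth m (res_const X) N M ?_
    intro a ha y
    obtain ⟨⟨z, hz⟩, rfl⟩ := Submodule.Quotient.mk_surjective _ y
    rw [← Submodule.Quotient.mk_smul, Submodule.Quotient.mk_eq_zero]
    show a • z ∈ K
    have h2 := sup_pow_le _ _ N ha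
    obtain ⟨s, hs, t, ht, rfl⟩ := Submodule.mem_sup.1 h2
    rw [add_smul]
    refine K.add_mem ?_ ?_
    · obtain ⟨s', rfl⟩ := Ideal.mem_span_singleton'.1 hs
      rw [mul_comm, mul_smul]
      exact hx _ (F₀.smul_mem _ hz)
    · refine Submodule.mem_sup_right ⟨?_, E.V₀.smul_mem _ hz.2⟩
      have h3 : (t : X.B) ∈ IC X ^ N := by
        have h4 : ideal0 X ^ N ≤ (IC X ^ N).comap X.B₀.val.toRingHom := by
          rw [← Ideal.map_le_iff_le_comap, Ideal.map_pow]
          refine Ideal.pow_right_mono ?_ N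
          rw [Ideal.map_le_iff_le_comap]
          intro b hb
          exact hb
        exact h4 ht
      exact Submodule.smul_mem_smul h3 hz.1
  refine ⟨Module.finrank k M, fun G L P r h hN => ?_⟩
  -- the subspace attached to a set of sections
  let W : Submodule X.B₀ E.V → Submodule k M := fun S =>
    (Submodule.map (K.submoduleOf F₀).mkQ (S.comap F₀.subtype)).restrictScalars k
  have hWmono : ∀ S S' : Submodule X.B₀ E.V, S ≤ S' → W S ≤ W S' := by
    rintro S S' hS y ⟨z, hz, rfl⟩
    exact ⟨z, hS hz, rfl⟩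
  have hstep : ∀ j < L, Module.finrank k (W (sec₀ E (P j))) + r j ≤
      Module.finrank k (W (sec₀ E (P (j + 1)))) := by
    intro j hj
    obtain ⟨hle, θ, hθ, hsurj, hker, h0, h1⟩ := h.2.2 j hj
    have hjF : P (j + 1) ≤ F := by
      have h4 := h.mono (j + 1) L (by omega) le_rfl
      rwa [h.2.1] at h4
    have hGj : G ≤ P j := by
      have h4 := h.mono 0 j (by omega) (by omega)
      rwa [h.1] at h4
    -- sections whose coordinates `l ≥ i` vanish
    let S : ℕ → Submodule X.B₀ E.V := fun i =>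
      { carrier := {v | v ∈ E.V₀ ∧ ∃ hv : v ∈ P (j + 1), ∀ l : Fin (r j), i ≤ l →
          θ ⟨v, hv⟩ l = 0}
        add_mem' := by
          rintro a b ⟨ha0, ha, ha'⟩ ⟨hb0, hb, hb'⟩
          refine ⟨E.V₀.add_mem ha0 hb0, (P (j + 1)).add_mem ha hb, fun l hl => ?_⟩
          have h2 : θ ⟨a + b, (P (j + 1)).add_mem ha hb⟩ = θ ⟨a, ha⟩ + θ ⟨b, hb⟩ := by
            rw [← map_add]; rfl
          rw [h2, Pi.add_apply, ha' l hl, hb' l hl, add_zero]
        zero_mem' := ⟨E.V₀.zero_mem, (P (j + 1)).zero_mem, fun l _ => by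
          have h2 : θ ⟨0, (P (j + 1)).zero_mem⟩ = 0 := map_zero θ
          rw [h2]; rfl⟩
        smul_mem' := by
          rintro b a ⟨ha0, ha, ha'⟩
          refine ⟨E.V₀.smul_mem b ha0, (P (j + 1)).smul_mem (b : X.B) ha, fun l hl => ?_⟩
          have h2 : θ ⟨b • a, (P (j + 1)).smul_mem (b : X.B) ha⟩ l =
              X.res (b : X.B) * θ ⟨a, ha⟩ l := by
            rw [← hθ]; rfl
          rw [h2, ha' l hl, mul_zero] }
    have hS0 : sec₀ E (P j) ≤ S 0 := by
      rintro v ⟨hv, hv0⟩
      refine ⟨hv0, hle hv, fun l _ => ?_⟩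
      have h2 : θ ⟨v, hle hv⟩ = 0 := (hker _).2 hv
      rw [h2]; rfl
    have hSr : S (r j) ≤ sec₀ E (P (j + 1)) := by
      rintro v ⟨hv0, hv, -⟩
      exact ⟨hv, hv0⟩
    have hSmono : ∀ i, S i ≤ S (i + 1) := by
      rintro i v ⟨hv0, hv, hv'⟩
      exact ⟨hv0, hv, fun l hl => hv' l (by omega)⟩
    have hlt : ∀ i < r j, W (S i) < W (S (i + 1)) := by
      intro i hi
      rw [lt_iff_le_and_ne]
      refine ⟨hWmono _ _ (hSmono i), fun heq => ?_⟩
      -- an element with `θ = e_i`
      have h2 : ∀ l : Fin (r j), (Pi.single (⟨i, hi⟩ : Fin (r j)) (1 : k[T;T⁻¹]) :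
          Fin (r j) → k[T;T⁻¹]) l ∈ Reg0 k := by
        intro l
        by_cases hl : l = ⟨i, hi⟩
        · subst hl
          rw [Pi.single_eq_same]
          intro n hn
          rw [← T_zero, T_apply, if_neg (by omega)]
        · rw [Pi.single_eq_of_ne hl]
          intro n _
          rfl
      obtain ⟨q, hq0, hq⟩ := (h0 _).2 h2
      have hqS : (q : E.V) ∈ S (i + 1) := by
        refine ⟨hq0, q.2, fun l hl => ?_⟩
        have h3 : θ ⟨q, q.2⟩ = θ q := rfl
        rw [h3, hq, Pi.single_eq_of_ne]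
        intro h4
        rw [h4] at hl
        simp at hl
      let z : F₀ := ⟨q, hjF q.2, hq0⟩
      have h3 : (K.submoduleOf F₀).mkQ z ∈ W (S (i + 1)) := ⟨z, hqS, rfl⟩
      rw [← heq] at h3
      obtain ⟨z', hz', hzz⟩ := h3
      have h4 : z' - z ∈ K.submoduleOf F₀ := (Submodule.Quotient.eq _).1 hzz
      have h5 : (z' : E.V) - q ∈ K := h4
      obtain ⟨s, hs, t, ht, hst⟩ := Submodule.mem_sup.1 h5
      obtain ⟨a, ha, rfl⟩ := hs
      have hz'S : (z' : E.V) ∈ S i := hz'
      obtain ⟨hz'0, hz'P, hz'l⟩ := hz'S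
      have htP : t ∈ P j := hGj (hN ht.1)
      have hxa : (X.x : X.B) • a = (z' : E.V) - q - t := by
        have h6 : (X.x : X.B) • a + t = (z' : E.V) - q := hst
        rw [← h6, add_sub_cancel_right]
      have haP : a ∈ P (j + 1) := by
        have h6 : (X.x : X.B) • a ∈ P (j + 1) := by
          rw [hxa]
          exact Submodule.sub_mem _ (Submodule.sub_mem _ hz'P q.2) (hle htP)
        have h7 := (P (j + 1)).smul_mem ((X.x⁻¹ : X.Bˣ) : X.B) h6
        rwa [smul_smul, Units.inv_mul, one_smul] at h7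
      have h8 := (h0 _).1 ⟨⟨a, haP⟩, ha.2, rfl⟩ ⟨i, hi⟩
      -- apply `θ` to `q + x a + t = z'`
      have h9 : θ ⟨z', hz'P⟩ = θ q + θ ((X.x : X.B) • ⟨a, haP⟩) + θ ⟨t, hle htP⟩ := by
        rw [← map_add, ← map_add]
        congr 1
        apply Subtype.ext
        show (z' : E.V) = q + (X.x : X.B) • a + t
        rw [hxa]
        abel
      have h10 : θ ⟨t, hle htP⟩ = 0 := (hker _).2 htP
      have h11 := congrFun h9 ⟨i, hi⟩
      rw [h10, hz'l ⟨i, hi⟩ le_rfl, hq] at h11
      rw [Pi.add_apply, Pi.add_apply, Pi.zero_apply, add_zero, hθ, Pi.single_eq_same,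
        X.res_x] at h11
      have h12 : θ ⟨a, haP⟩ ⟨i, hi⟩ = - T (-1) := by
        have h13 : T (-1) * (1 + T 1 * θ ⟨a, haP⟩ ⟨i, hi⟩) = 0 := by rw [← h11, mul_zero]
        rw [mul_add, ← mul_assoc, ← T_add, mul_one] at h13
        norm_num at h13
        linear_combination h13
      rw [h12] at h8
      have h13 := h8 (-1) (by norm_num)
      simp at h13
    have hind : ∀ i ≤ r j, Module.finrank k (W (S 0)) + i ≤ Module.finrank k (W (S i)) := by
      intro i
      induction i with
      | zero => intro _; exact le_rfl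
      | succ i ih =>
        intro hi
        have h2 := ih (by omega)
        have h3 := Submodule.finrank_lt_finrank_of_lt (hlt i (by omega))
        omega
    have h2 := hind (r j) le_rfl
    have h3 := Submodule.finrank_mono (hWmono _ _ hS0)
    have h4 := Submodule.finrank_mono (hWmono _ _ hSr)
    omega
  have hsum : ∀ j ≤ L, ∑ i ∈ Finset.range j, r i ≤ Module.finrank k (W (sec₀ E (P j))) := by
    intro j
    induction j with
    | zero => intro _; simp
    | succ j ih =>
      intro hj
      rw [Finset.sum_range_succ]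
      have h2 := ih (by omega)
      have h3 := hstep j (by omega)
      omega
  exact (hsum L le_rfl).trans (Submodule.finrank_le _)

end Pool.Agent.H60ISO
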