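import Mathlib
import Pool.Agent.H60DW.Chain

/-!
MP_dd2d88: Laurent polynomials regular at the two points.
-/

set_option autoImplicit false

open LaurentPolynomial

namespace Pool.Agent.H60ISO

open Pool.Agent.DWC Pool.Agent.H60DW

universe u

variable {k : Type u} [Field k] {X : Nbhd k}

theorem coeff_natCast (p : Polynomial k) (n : ℕ) :
    (Polynomial.toLaurent p).coeff (n : ℤ) = p.coeff n := by
  rw [coeff_toLaurent]
  exact Finsupp.mapDomain_apply Nat.castEmbedding.injective _ _

theorem coeff_neg (p : Polynomial k) {n : ℤ} (hn : n < 0) :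
    (Polynomial.toLaurent p).coeff n = 0 := by
  rw [coeff_toLaurent]
  refine Finsupp.mapDomain_of_notMem_range _ _ ?_
  rintro ⟨m, hm⟩
  have : (m : ℤ) = n := hm
  omega

theorem toLaurent_mem (p : Polynomial k) : Polynomial.toLaurent p ∈ Reg0 k :=
  fun _ hi => coeff_neg p hi

theorem coeff_T_mul (f : k[T;T⁻¹]) (m n : ℤ) : (T m * f).coeff n = f.coeff (n - m) := by
  induction f using LaurentPolynomial.induction_on' with
  | add p q hp hq =>
    rw [mul_add, AddMonoidAlgebra.coeff_add, Finsupp.add_apply, hp, hq,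
      AddMonoidAlgebra.coeff_add, Finsupp.add_apply]
  | C_mul_T i a =>
    rw [mul_left_comm, ← T_add, ← LaurentPolynomial.single_eq_C_mul_T,
      ← LaurentPolynomial.single_eq_C_mul_T, AddMonoidAlgebra.coeff_single,
      AddMonoidAlgebra.coeff_single, Finsupp.single_apply, Finsupp.single_apply]
    by_cases h : m + i = n
    · rw [if_pos h, if_pos (by omega)]
    · rw [if_neg h, if_neg (by omega)]

theorem coeff_invert (f : k[T;T⁻¹]) (n : ℤ) : (invert f).coeff n = f.coeff (-n) := by
  rw [invert_apply]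

theorem res_aeval_x (X : Nbhd k) (p : Polynomial k) :
    X.res (Polynomial.aeval (X.x : X.B) p) = Polynomial.toLaurent p := by
  rw [← Polynomial.aeval_algHom_apply, X.res_x]
  have h4 : (Polynomial.aeval (T 1 : k[T;T⁻¹]) : Polynomial k →ₐ[k] k[T;T⁻¹]) =
      Polynomial.toLaurentAlg := by
    apply Polynomial.algHom_ext
    rw [Polynomial.aeval_X, Polynomial.toLaurentAlg_apply, Polynomial.toLaurent_X]
  rw [h4, Polynomial.toLaurentAlg_apply]

theorem res_aeval_w (X : Nbhd k) (p : Polynomial k) :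
    X.res (Polynomial.aeval (X.w : X.B) p) = invert (Polynomial.toLaurent p) := by
  rw [← Polynomial.aeval_algHom_apply, X.res_w]
  have h4 : (Polynomial.aeval (T (-1) : k[T;T⁻¹]) : Polynomial k →ₐ[k] k[T;T⁻¹]) =
      (invert : k[T;T⁻¹] ≃ₐ[k] k[T;T⁻¹]).toAlgHom.comp Polynomial.toLaurentAlg := by
    apply Polynomial.algHom_ext
    rw [Polynomial.aeval_X]
    show _ = invert (Polynomial.toLaurentAlg Polynomial.X)
    rw [Polynomial.toLaurentAlg_apply, Polynomial.toLaurent_X, invert_T]
  rw [h4]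
  rfl

theorem aeval_x_mem (X : Nbhd k) (p : Polynomial k) :
    Polynomial.aeval (X.x : X.B) p ∈ X.B₀ := by
  have h3 : ((Polynomial.aeval (x0 X) p : X.B₀) : X.B) = Polynomial.aeval (X.x : X.B) p := by
    rw [← Subalgebra.coe_val, ← Polynomial.aeval_algHom_apply]
    rfl
  rw [← h3]
  exact Subtype.mem _

theorem aeval_w_mem (X : Nbhd k) (p : Polynomial k) :
    Polynomial.aeval (X.w : X.B) p ∈ X.B₁ := by
  have h3 : ((Polynomial.aeval (⟨X.w, X.w_mem⟩ : X.B₁) p : X.B₁) : X.B) =
      Polynomial.aeval (X.w : X.B) p := by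
    rw [← Subalgebra.coe_val, ← Polynomial.aeval_algHom_apply]
    rfl
  rw [← h3]
  exact Subtype.mem _

/-- Degrees at infinity. -/
theorem regInf_of_mul {p : Polynomial k} (hp : p ≠ 0) {f : k[T;T⁻¹]} {e : ℤ}
    (h : Polynomial.toLaurent p * f ∈ RegInf k e) : f ∈ RegInf k (e - p.natDegree) := by
  obtain ⟨N, q, hq⟩ := LaurentPolynomial.exists_T_pow f
  by_cases hq0 : q = 0
  · have hf : f = 0 := by
      have h1 : f * T N = 0 := by rw [← hq, hq0, map_zero]
      have h2 : f * T N * T (-N) = 0 := by rw [h1, zero_mul]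
      rwa [mul_assoc, ← T_add, add_neg_cancel, T_zero, mul_one] at h2
    rw [hf]
    intro i _
    rfl
  intro i hi
  by_contra hcon
  -- the coefficient of `q` at `i + N`
  have h1 : f = T (-N) * Polynomial.toLaurent q := by
    rw [hq, mul_comm f, ← mul_assoc, ← T_add, neg_add_cancel, T_zero, one_mul]
  rw [h1, coeff_T_mul] at hcon
  have h2 : 0 ≤ i - -(N : ℤ) := by
    by_contra hneg
    exact hcon (coeff_neg q (by omega))
  obtain ⟨m, hm⟩ := Int.eq_ofNat_of_zero_le h2
  rw [hm, coeff_natCast] at hcon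
  have h3 : m ≤ q.natDegree := Polynomial.le_natDegree_of_ne_zero hcon
  -- the leading coefficient of `p q`
  have h4 : (p * q).coeff (p.natDegree + q.natDegree) ≠ 0 := by
    rw [Polynomial.coeff_mul_degree_add_degree]
    exact mul_ne_zero (Polynomial.leadingCoeff_ne_zero.2 hp)
      (Polynomial.leadingCoeff_ne_zero.2 hq0)
  apply h4
  rw [← coeff_natCast, map_mul, hq]
  have h5 : Polynomial.toLaurent p * (f * T N) = T N * (Polynomial.toLaurent p * f) := by ring
  rw [h5, coeff_T_mul]
  apply h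
  push_cast
  omega

end Pool.Agent.H60ISO
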