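import Mathlib
import Pool.Agent.H60ISO.Kill
import Pool.Agent.H60ISO.Lau

/-!
MP_dd2d88: a nonzero map `G → 𝒪_C(-1)` gives a layer of rank one, if there is no nonzero map
`G → 𝒪_C(-2)`.
-/

set_option autoImplicit false

open LaurentPolynomial

namespace Pool.Agent.H60ISO

open Pool.Agent.DWC Pool.Agent.H23ISO Pool.Agent.H60DW

universe u

variable {k : Type u} [Field k] {X : Nbhd k}

theorem open_smul {E : FSh X} {G : Submodule X.B E.V} (hG : IsOpen' E G) :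
    ∃ n : ℕ, (IC X ^ n) • (⊤ : Submodule X.B E.V) ≤ IC X • G := by
  obtain ⟨n, hn⟩ := hG
  refine ⟨n + 1, ?_⟩
  rw [pow_succ', Submodule.mul_smul]
  exact Submodule.smul_mono le_rfl hn

theorem smul_le_self {E : FSh X} (G : Submodule X.B E.V) : IC X • G ≤ G :=
  Submodule.smul_le_right

theorem map_IC {E : FSh X} {G : Submodule X.B E.V} (φ : G →+ k[T;T⁻¹])
    (hφ : ∀ (b : X.B) (g : G), φ (b • g) = X.res b * φ g) {v : E.V} (hv : v ∈ IC X • G) :
    φ ⟨v, smul_le_self G hv⟩ = 0 := by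
  have h1 : ∃ h : v ∈ G, φ ⟨v, h⟩ = 0 := by
    refine Submodule.smul_induction_on hv ?_ ?_
    · intro b hb g hg
      refine ⟨G.smul_mem b hg, ?_⟩
      have h2 : φ ⟨b • g, G.smul_mem b hg⟩ = X.res b * φ ⟨g, hg⟩ := by rw [← hφ]; rfl
      rw [h2, mem_IC.1 hb, zero_mul]
    · rintro x y ⟨hx, hx'⟩ ⟨hy, hy'⟩
      refine ⟨G.add_mem hx hy, ?_⟩
      have h2 : φ ⟨x + y, G.add_mem hx hy⟩ = φ ⟨x, hx⟩ + φ ⟨y, hy⟩ := by rw [← map_add]; rfl
      rw [h2, hx', hy', add_zero]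
  obtain ⟨_, h⟩ := h1
  exact h

theorem rank_one (E : FSh X) (G : Submodule X.B E.V) (hG : IsOpen' E G) (h2 : NoHom E G (-2))
    (φ : G →+ k[T;T⁻¹]) (hφ : ∀ (b : X.B) (g : G), φ (b • g) = X.res b * φ g)
    (hφ0 : ∀ g : G, (g : E.V) ∈ E.V₀ → φ g ∈ Reg0 k)
    (hφ1 : ∀ g : G, (g : E.V) ∈ E.V₁ → φ g ∈ RegInf k (-1)) (hne : φ ≠ 0) :
    ∃ G' : Submodule X.B E.V, G' ≤ G ∧ LayerR E 1 G' G := by
  classical
  obtain ⟨n, hn⟩ := open_smul hG
  -- localisation
  have loc0 : ∀ g : G, ∃ (m : ℕ) (g' : G), (g' : E.V) ∈ E.V₀ ∧ φ g' = T m * φ g := by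
    intro g
    obtain ⟨m, c, hc, hm⟩ := E.loc₀ n g
    have hcI := hn hc
    refine ⟨m, (X.x : X.B) ^ m • g + ⟨c, smul_le_self G hcI⟩, hm, ?_⟩
    rw [map_add, hφ, map_IC φ hφ hcI, add_zero, map_pow, X.res_x, T_pow, mul_one]
  have loc1 : ∀ g : G, ∃ (m : ℕ) (g' : G), (g' : E.V) ∈ E.V₁ ∧ φ g' = T (-m) * φ g := by
    intro g
    obtain ⟨m, c, hc, hm⟩ := E.loc₁ n g
    have hcI := hn hc
    refine ⟨m, (X.w : X.B) ^ m • g + ⟨c, smul_le_self G hcI⟩, hm, ?_⟩
    rw [map_add, hφ, map_IC φ hφ hcI, add_zero, map_pow, X.res_w, T_pow, mul_neg_one]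
  -- the ideal of the values on `U₀`
  let I0 : Ideal (Polynomial k) :=
    { carrier := {p | ∃ g : G, (g : E.V) ∈ E.V₀ ∧ φ g = Polynomial.toLaurent p}
      add_mem' := by
        rintro p q ⟨g, hg, hp⟩ ⟨g', hg', hq⟩
        exact ⟨g + g', E.V₀.add_mem hg hg', by rw [map_add, hp, hq, map_add]⟩
      zero_mem' := ⟨0, E.V₀.zero_mem, by rw [map_zero, map_zero]⟩
      smul_mem' := by
        rintro p q ⟨g, hg, hq⟩
        refine ⟨Polynomial.aeval (X.x : X.B) p • g,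
          E.V₀.smul_mem ⟨_, aeval_x_mem X p⟩ hg, ?_⟩
        rw [hφ, res_aeval_x, hq, smul_eq_mul, map_mul] }
  obtain ⟨p0, hp0⟩ := (IsPrincipalIdealRing.principal I0).principal
  have hI0 : ∀ g : G, (g : E.V) ∈ E.V₀ → ∃ s : Polynomial k,
      φ g = Polynomial.toLaurent p0 * Polynomial.toLaurent s := by
    intro g hg
    obtain ⟨q, hq⟩ := exists_poly (hφ0 g hg)
    have h3 : q ∈ I0 := ⟨g, hg, hq.symm⟩
    rw [hp0, Submodule.mem_span_singleton] at h3
    obtain ⟨s, rfl⟩ := h3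
    exact ⟨s, by rw [← hq, smul_eq_mul, map_mul, mul_comm]⟩
  have hdiv : ∀ g : G, ∃ f : k[T;T⁻¹], φ g = Polynomial.toLaurent p0 * f := by
    intro g
    obtain ⟨m, g', hg', h3⟩ := loc0 g
    obtain ⟨s, hs⟩ := hI0 g' hg'
    refine ⟨T (-m) * Polynomial.toLaurent s, ?_⟩
    rw [mul_left_comm, ← hs, h3, ← mul_assoc, ← T_add, neg_add_cancel, T_zero, one_mul]
  have hp0' : p0 ≠ 0 := by
    intro h
    apply hne
    ext g : 1
    obtain ⟨f, hf⟩ := hdiv g
    rw [hf, h, map_zero, zero_mul]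
    rfl
  have hL0 : Polynomial.toLaurent p0 ≠ 0 := by
    rw [Ne, Polynomial.toLaurent_eq_zero]
    exact hp0'
  choose ψ hψ using hdiv
  -- `p0` is constant
  have hdeg : p0.natDegree = 0 := by
    by_contra hdeg
    have hψadd : ∀ g g' : G, ψ (g + g') = ψ g + ψ g' := by
      intro g g'
      apply mul_left_cancel₀ hL0
      rw [← hψ, map_add, mul_add, ← hψ, ← hψ]
    let Ψ : G →+ k[T;T⁻¹] := AddMonoidHom.mk' ψ hψadd
    have h3 := h2 Ψ ?_ ?_ ?_
    · apply hne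
      ext g : 1
      have h4 : ψ g = 0 := DFunLike.congr_fun h3 g
      rw [hψ, h4, mul_zero]
      rfl
    · intro b g
      apply mul_left_cancel₀ hL0
      show Polynomial.toLaurent p0 * ψ (b • g) = Polynomial.toLaurent p0 * (X.res b * ψ g)
      rw [← hψ, hφ, mul_left_comm, ← hψ]
    · intro g hg
      obtain ⟨s, hs⟩ := hI0 g hg
      have h4 : ψ g = Polynomial.toLaurent s := by
        apply mul_left_cancel₀ hL0
        rw [← hψ, hs]
      show ψ g ∈ Reg0 k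
      rw [h4]
      exact toLaurent_mem s
    · intro g hg
      show ψ g ∈ RegInf k (-2)
      have h4 := hφ1 g hg
      rw [hψ] at h4
      have h5 := regInf_of_mul hp0' h4
      intro i hi
      apply h5
      omega
  -- so all of `k[T]` is attained
  have hone : ∃ g : G, (g : E.V) ∈ E.V₀ ∧ φ g = 1 := by
    have h3 : (1 : Polynomial k) ∈ I0 := by
      rw [hp0]
      rw [Polynomial.natDegree_eq_zero] at hdeg
      obtain ⟨c, rfl⟩ := hdeg
      have hc : c ≠ 0 := by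
        rintro rfl
        exact hp0' (map_zero _)
      rw [Submodule.mem_span_singleton]
      refine ⟨Polynomial.C c⁻¹, ?_⟩
      rw [smul_eq_mul, ← map_mul, inv_mul_cancel₀ hc, map_one]
    obtain ⟨g, hg, h4⟩ := h3
    exact ⟨g, hg, by rw [h4, Polynomial.toLaurent_one]⟩
  obtain ⟨g0, hg0, hg01⟩ := hone
  have hall0 : ∀ f ∈ Reg0 k, ∃ g : G, (g : E.V) ∈ E.V₀ ∧ φ g = f := by
    intro f hf
    obtain ⟨p, rfl⟩ := exists_poly hf
    refine ⟨Polynomial.aeval (X.x : X.B) p • g0, E.V₀.smul_mem ⟨_, aeval_x_mem X p⟩ hg0, ?_⟩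
    rw [hφ, res_aeval_x, hg01, mul_one]
  have hsurj : ∀ f : k[T;T⁻¹], ∃ g : G, φ g = f := by
    intro f
    obtain ⟨N, q, hq⟩ := LaurentPolynomial.exists_T_pow f
    obtain ⟨g, -, hg⟩ := hall0 (Polynomial.toLaurent q) (toLaurent_mem q)
    refine ⟨((X.x⁻¹ : X.Bˣ) : X.B) ^ N • g, ?_⟩
    have h3 : X.res ((X.x⁻¹ : X.Bˣ) : X.B) = T (-1) := by
      have h4 : X.res ((X.x⁻¹ : X.Bˣ) : X.B) * T 1 = 1 := by
        rw [← X.res_x, ← map_mul, Units.inv_mul, map_one]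
      have h5 : X.res ((X.x⁻¹ : X.Bˣ) : X.B) * T 1 * T (-1) = T (-1) := by rw [h4, one_mul]
      rwa [mul_assoc, ← T_add, add_neg_cancel, T_zero, mul_one] at h5
    rw [hφ, map_pow, h3, hg, hq, T_pow, mul_comm f, ← mul_assoc, ← T_add]
    have h4 : (N : ℤ) * -1 + N = 0 := by ring
    rw [h4, T_zero, one_mul]
  -- the values on `U₁`
  let I1 : Ideal (Polynomial k) :=
    { carrier := {p | ∃ g : G, (g : E.V) ∈ E.V₁ ∧
        φ g = T (-1) * invert (Polynomial.toLaurent p)}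
      add_mem' := by
        rintro p q ⟨g, hg, hp⟩ ⟨g', hg', hq⟩
        exact ⟨g + g', E.V₁.add_mem hg hg', by rw [map_add, hp, hq, map_add, map_add, mul_add]⟩
      zero_mem' := ⟨0, E.V₁.zero_mem, by rw [map_zero, map_zero, map_zero, mul_zero]⟩
      smul_mem' := by
        rintro p q ⟨g, hg, hq⟩
        refine ⟨Polynomial.aeval (X.w : X.B) p • g,
          E.V₁.smul_mem ⟨_, aeval_w_mem X p⟩ hg, ?_⟩
        rw [hφ, res_aeval_w, hq, smul_eq_mul, map_mul, map_mul, mul_left_comm] }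
  have hval1 : ∀ g : G, (g : E.V) ∈ E.V₁ → ∃ s ∈ I1,
      φ g = T (-1) * invert (Polynomial.toLaurent s) := by
    intro g hg
    have h3 : invert (T 1 * φ g) ∈ Reg0 k := by
      intro i hi
      rw [coeff_invert, coeff_T_mul]
      apply hφ1 g hg
      omega
    obtain ⟨s, hs⟩ := exists_poly h3
    have h4 : φ g = T (-1) * invert (Polynomial.toLaurent s) := by
      rw [hs, involutive_invert, ← mul_assoc, ← T_add, neg_add_cancel, T_zero, one_mul]
    exact ⟨s, ⟨g, hg, h4⟩, h4⟩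
  have hex1 : ∃ s ∈ I1, ¬ Polynomial.X ∣ s := by
    by_contra hcon
    push Not at hcon
    apply hne
    refine h2 φ hφ hφ0 fun g hg => ?_
    obtain ⟨s, hs, h3⟩ := hval1 g hg
    have h4 := hcon s hs
    rw [Polynomial.X_dvd_iff] at h4
    intro i hi
    rw [h3, coeff_T_mul, coeff_invert]
    by_cases hi' : i = -1
    · subst hi'
      have h5 := coeff_natCast s 0
      rw [h4] at h5
      exact_mod_cast h5
    · exact coeff_neg s (by omega)
  have hpow1 : ∃ m : ℕ, (Polynomial.X : Polynomial k) ^ m ∈ I1 := by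
    obtain ⟨g, hg⟩ := hsurj (T (-1))
    obtain ⟨m, g', hg', h3⟩ := loc1 g
    refine ⟨m, g', hg', ?_⟩
    rw [h3, hg, Polynomial.toLaurent_X_pow, invert_T, mul_comm]
  have hI1 : (1 : Polynomial k) ∈ I1 := by
    obtain ⟨s, hs, hXs⟩ := hex1
    obtain ⟨m, hm⟩ := hpow1
    have h3 : IsCoprime (Polynomial.X ^ m) s :=
      (((Polynomial.irreducible_X (R := k)).coprime_iff_not_dvd).2 hXs).pow_left
    obtain ⟨a, b, hab⟩ := h3
    rw [← hab]
    exact I1.add_mem (I1.mul_mem_left _ hm) (I1.mul_mem_left _ hs)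
  have hall1 : ∀ f ∈ RegInf k (-1), ∃ g : G, (g : E.V) ∈ E.V₁ ∧ φ g = f := by
    intro f hf
    have h3 : invert (T 1 * f) ∈ Reg0 k := by
      intro i hi
      rw [coeff_invert, coeff_T_mul]
      apply hf
      omega
    obtain ⟨s, hs⟩ := exists_poly h3
    have h4 : s ∈ I1 := by
      have h5 := I1.mul_mem_left s hI1
      rwa [mul_one] at h5
    obtain ⟨g, hg, h5⟩ := h4
    refine ⟨g, hg, ?_⟩
    rw [h5, hs, involutive_invert, ← mul_assoc, ← T_add, neg_add_cancel, T_zero, one_mul]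
  -- the kernel
  let G' : Submodule X.B E.V :=
    { carrier := {v | ∃ h : v ∈ G, φ ⟨v, h⟩ = 0}
      add_mem' := by
        rintro x y ⟨hx, hx'⟩ ⟨hy, hy'⟩
        refine ⟨G.add_mem hx hy, ?_⟩
        have h2 : φ ⟨x + y, G.add_mem hx hy⟩ = φ ⟨x, hx⟩ + φ ⟨y, hy⟩ := by
          rw [← map_add]; rfl
        rw [h2, hx', hy', add_zero]
      zero_mem' := ⟨G.zero_mem, map_zero φ⟩
      smul_mem' := by
        rintro b x ⟨hx, hx'⟩
        refine ⟨G.smul_mem b hx, ?_⟩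
        have h2 : φ ⟨b • x, G.smul_mem b hx⟩ = X.res b * φ ⟨x, hx⟩ := by
          rw [← hφ]; rfl
        rw [h2, hx', mul_zero] }
  refine ⟨G', fun v hv => hv.1, ⟨⟨fun g _ => φ g, ?_⟩, ?_⟩, ?_, ?_, ?_, ?_, ?_⟩
  · funext _
    exact map_zero φ
  · intro g g'
    funext _
    exact map_add φ g g'
  · intro b g _
    exact hφ b g
  · intro f
    obtain ⟨g, hg⟩ := hsurj (f 0)
    refine ⟨g, ?_⟩
    funext i
    rw [Subsingleton.elim i 0]
    exact hg
  · intro g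
    constructor
    · intro h
      exact ⟨g.2, congrFun h 0⟩
    · rintro ⟨_, h⟩
      funext _
      exact h
  · intro f
    constructor
    · rintro ⟨g, hg, rfl⟩ i
      exact hφ0 g hg
    · intro h
      obtain ⟨g, hg, hg'⟩ := hall0 (f 0) (h 0)
      refine ⟨g, hg, ?_⟩
      funext i
      rw [Subsingleton.elim i 0]
      exact hg'
  · intro f
    constructor
    · rintro ⟨g, hg, rfl⟩ i
      exact hφ1 g hg
    · intro h
      obtain ⟨g, hg, hg'⟩ := hall1 (f 0) (h 0)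
      refine ⟨g, hg, ?_⟩
      funext i
      rw [Subsingleton.elim i 0]
      exact hg'

end Pool.Agent.H60ISO
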