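import Mathlib
import Pool.Agent.H60ISO.Dim
import Pool.Agent.H60ISO.One

/-!
MP_dd2d88, ISO-C: a maximal chain ends in a subsheaf without maps to `𝒪_C(-1)`.
-/

set_option autoImplicit false

open LaurentPolynomial

namespace Pool.Agent.H60ISO

open Pool.Agent.DWC Pool.Agent.H23ISO Pool.Agent.H60DW

universe u

variable {k : Type u} [Field k] {X : Nbhd k}

theorem exists_rChain {E : FSh X} {F G : Submodule X.B E.V} (h : Chain E F G) :
    ∃ (L : ℕ) (P : ℕ → Submodule X.B E.V) (r : ℕ → ℕ), RChain E F G L P r := by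
  classical
  obtain ⟨L, P, h0, hL, hP⟩ := h
  choose! r hr using fun j hj => (hP j hj).2
  exact ⟨L, P, r, h0, hL, fun j hj => ⟨(hP j hj).1, hr j hj⟩⟩

/-- ISO-C -/
theorem exists_noHom (hL : LoewyBounded' X) (E : FSh X) (F : Submodule X.B E.V)
    (hF : IsOpen' E F) (h2 : ∀ G, Chain E F G → NoHom E G (-2)) :
    ∃ G, Chain E F G ∧ IsOpen' E G ∧ NoHom E G (-1) := by
  classical
  obtain ⟨N, hN⟩ := hL
  obtain ⟨D, hD⟩ := rank_bound E F N
  -- the total ranks of chains
  let T : ℕ → Prop := fun t => ∃ (G : Submodule X.B E.V) (L : ℕ)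
    (P : ℕ → Submodule X.B E.V) (r : ℕ → ℕ), RChain E F G L P r ∧
      ∑ j ∈ Finset.range L, r j = t
  have hT0 : T 0 := ⟨F, 0, fun _ => F, fun _ => 0, ⟨rfl, rfl, fun j hj => by omega⟩, by simp⟩
  have hTD : ∀ t, T t → t ≤ D := by
    rintro t ⟨G, L, P, r, h, rfl⟩
    exact hD G L P r h (pow_bound hN h hF)
  have hmax : ∃ t, T t ∧ ∀ t', T t' → t' ≤ t := by
    refine ⟨Nat.findGreatest T D, Nat.findGreatest_spec (Nat.zero_le D) hT0, fun t' ht' => ?_⟩
    exact Nat.le_findGreatest (hTD t' ht') ht'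
  obtain ⟨t, ⟨G, L, P, r, h, ht⟩, hmax⟩ := hmax
  refine ⟨G, h.chain, h.isOpen hF, ?_⟩
  intro φ hφ hφ0 hφ1
  by_contra hne
  obtain ⟨G', hG'G, hlay⟩ := rank_one E G (h.isOpen hF) (h2 G h.chain) φ hφ hφ0 hφ1 hne
  have h3 : T (t + 1) := by
    refine ⟨G', L + 1, fun j => Nat.casesOn j G' P, fun j => Nat.casesOn j 1 r,
      ⟨rfl, h.2.1, ?_⟩, ?_⟩
    · intro j hj
      cases j with
      | zero =>
        refine ⟨?_, ?_⟩
        · show G' ≤ P 0
          rw [h.1]
          exact hG'G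
        · show LayerR E 1 G' (P 0)
          rw [h.1]
          exact hlay
      | succ j => exact h.2.2 j (by omega)
    · rw [Finset.sum_range_succ', ← ht]
      rfl
  have := hmax _ h3
  omega

end Pool.Agent.H60ISO
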